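import Pool.Agent.helper24.ISL.Spec

/-!
# Row FI of `Pool.Agent.helper24.ISL.Spec`
-/

set_option autoImplicit false

namespace Pool.Agent.ISL

open Matrix

theorem FI_tpow {n : ℕ} {R : Type} [CommRing R] {i j : Fin n} (hij : i ≠ j) (b : R) (k : ℕ) :
    (Matrix.SpecialLinearGroup.transvection hij b) ^ k =
      Matrix.SpecialLinearGroup.transvection hij ((k : R) * b) := by
  induction k with
  | zero => simp
  | succ k ih =>
    rw [pow_succ, ih, ← Matrix.SpecialLinearGroup.transvection_add]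
    congr 1
    push_cast
    ring

theorem FI_map {n : ℕ} {i j : Fin n} (hij : i ≠ j) (b : ℤ) :
    Matrix.SpecialLinearGroup.map (Int.castRingHom ℚ) (Matrix.SpecialLinearGroup.transvection hij b) =
      Matrix.SpecialLinearGroup.transvection hij (b : ℚ) := by
  ext a c
  simp only [Matrix.SpecialLinearGroup.map_apply_coe, Matrix.SpecialLinearGroup.transvection_coe,
    RingHom.mapMatrix_apply, Matrix.map_apply, Matrix.add_apply, Matrix.one_apply, Matrix.single_apply]
  split_ifs <;> simp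

theorem FI_conj {n : ℕ} {i j : Fin n} (hij : i ≠ j) (p : ℚ) (hp : p ≠ 0) (x : ℚ) :
    Matrix.SpecialLinearGroup.transvection hij x * Matrix.SpecialLinearGroup.diag2n hij p hp =
      Matrix.SpecialLinearGroup.diag2n hij p hp * Matrix.SpecialLinearGroup.transvection hij (x / p ^ 2) := by
  apply Subtype.ext
  rw [Matrix.SpecialLinearGroup.coe_mul, Matrix.SpecialLinearGroup.coe_mul,
    Matrix.SpecialLinearGroup.transvection_coe, Matrix.SpecialLinearGroup.transvection_coe,
    Matrix.SpecialLinearGroup.diag2n_coe]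
  ext a c
  rw [Matrix.mul_diagonal, Matrix.diagonal_mul]
  simp only [Matrix.add_apply, Matrix.one_apply, Matrix.single_apply]
  by_cases hac : a = c
  · subst hac
    have h1 : ¬ (i = a ∧ j = a) := fun h => hij (h.1.trans h.2.symm)
    simp [h1]
  · by_cases h1 : i = a ∧ j = c
    · obtain ⟨rfl, rfl⟩ := h1
      simp only [hij, hij.symm, if_false, if_true, and_self, zero_add]
      field_simp
    · simp [hac, h1]

theorem FI_conjpow {n : ℕ} {i j : Fin n} (hij : i ≠ j) (p : ℚ) (hp : p ≠ 0) (l : ℕ) (x : ℚ) :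
    Matrix.SpecialLinearGroup.transvection hij x * (Matrix.SpecialLinearGroup.diag2n hij p hp) ^ l =
      (Matrix.SpecialLinearGroup.diag2n hij p hp) ^ l *
        Matrix.SpecialLinearGroup.transvection hij (x / p ^ (2 * l)) := by
  induction l generalizing x with
  | zero => simp
  | succ l ih =>
    rw [pow_succ, ← mul_assoc, ih, mul_assoc, FI_conj, mul_assoc]
    congr 3
    rw [div_div, ← pow_add]
    congr 2

/-- A power of every element is in `H`. -/
theorem FI_pow {n : ℕ} (H : Subgroup (SL n ℚ))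
    (h : ∀ g : SL n ℚ, ∃ h ∈ H, ∃ γ : SL n ℤ, g = h * Matrix.SpecialLinearGroup.map (Int.castRingHom ℚ) γ)
    (hi : (H.comap (Matrix.SpecialLinearGroup.map (Int.castRingHom ℚ) : SL n ℤ →* SL n ℚ)).index ≠ 0)
    (d : SL n ℚ) : ∃ l : ℕ, 0 < l ∧ d ^ l ∈ H := by
  set G := H.comap (Matrix.SpecialLinearGroup.map (Int.castRingHom ℚ) : SL n ℤ →* SL n ℚ) with hG
  haveI : G.FiniteIndex := ⟨hi⟩
  have hfin : Finite (SL n ℤ ⧸ G) := Subgroup.finite_quotient_of_finiteIndex
  choose hk hkH γ hγ using fun k : ℕ => h (d ^ k)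
  obtain ⟨x, y, hxy, hf⟩ := Finite.exists_ne_map_eq_of_infinite
    (fun k : ℕ => (QuotientGroup.mk ((γ k)⁻¹) : SL n ℤ ⧸ G))
  wlog hlt : x < y generalizing x y
  · exact this y x hxy.symm hf.symm (lt_of_le_of_ne (not_lt.1 hlt) hxy.symm)
  refine ⟨y - x, Nat.sub_pos_of_lt hlt, ?_⟩
  have h1 := QuotientGroup.eq.1 hf
  rw [inv_inv] at h1
  have h2 : Matrix.SpecialLinearGroup.map (Int.castRingHom ℚ) (γ x * (γ y)⁻¹) ∈ H := h1
  rw [map_mul, map_inv] at h2
  have h3 : d ^ (y - x) = hk y * (Matrix.SpecialLinearGroup.map (Int.castRingHom ℚ) (γ x) *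
      (Matrix.SpecialLinearGroup.map (Int.castRingHom ℚ) (γ y))⁻¹)⁻¹ * (hk x)⁻¹ := by
    rw [_root_.mul_inv_rev, inv_inv, ← mul_assoc, ← hγ y, mul_assoc, ← _root_.mul_inv_rev, ← hγ x]
    rw [eq_mul_inv_iff_mul_eq, ← pow_add, Nat.sub_add_cancel hlt.le]
  rw [h3]
  exact H.mul_mem (H.mul_mem (hkH y) (H.inv_mem h2)) (H.inv_mem (hkH x))

theorem FI (h1 : TW_stmt) : FI_stmt := by
  intro n hn H h hi
  refine h1 n ℚ H hn ?_
  intro i j hij
  let A : AddSubgroup ℚ :=
    { carrier := {x | Matrix.SpecialLinearGroup.transvection hij x ∈ H}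
      add_mem' := by
        intro a b ha hb
        show Matrix.SpecialLinearGroup.transvection hij (a + b) ∈ H
        rw [Matrix.SpecialLinearGroup.transvection_add]
        exact H.mul_mem ha hb
      zero_mem' := by
        show Matrix.SpecialLinearGroup.transvection hij (0 : ℚ) ∈ H
        rw [Matrix.SpecialLinearGroup.transvection_coeff_zero]
        exact H.one_mem
      neg_mem' := by
        intro a ha
        show Matrix.SpecialLinearGroup.transvection hij (-a) ∈ H
        rw [← Matrix.SpecialLinearGroup.transvection_inv]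
        exact H.inv_mem ha }
  have hA : ∀ x : ℚ, x ∈ A ↔ Matrix.SpecialLinearGroup.transvection hij x ∈ H := fun x => Iff.rfl
  -- an integer in A
  obtain ⟨M, hM0, _, hM⟩ := Subgroup.exists_pow_mem_of_index_ne_zero hi
    (Matrix.SpecialLinearGroup.transvection hij (1 : ℤ))
  have hMA : (M : ℚ) ∈ A := by
    rw [hA]
    have h2 : Matrix.SpecialLinearGroup.map (Int.castRingHom ℚ)
        ((Matrix.SpecialLinearGroup.transvection hij (1 : ℤ)) ^ M) ∈ H := hM
    rw [FI_tpow, FI_map] at h2
    push_cast at h2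
    rw [mul_one] at h2
    exact h2
  -- division by primes
  have hpr : ∀ p : ℕ, p.Prime → ∀ x ∈ A, x / p ∈ A := by
    intro p hp x hx
    have hp0 : (p : ℚ) ≠ 0 := by exact_mod_cast hp.ne_zero
    obtain ⟨l, hl, hd⟩ := FI_pow H h hi (Matrix.SpecialLinearGroup.diag2n hij (p : ℚ) hp0)
    have h3 : x / (p : ℚ) ^ (2 * l) ∈ A := by
      rw [hA] at hx ⊢
      have h4 := FI_conjpow hij (p : ℚ) hp0 l x
      have h5 : Matrix.SpecialLinearGroup.transvection hij (x / (p : ℚ) ^ (2 * l)) =
          (Matrix.SpecialLinearGroup.diag2n hij (p : ℚ) hp0 ^ l)⁻¹ *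
            (Matrix.SpecialLinearGroup.transvection hij x *
              (Matrix.SpecialLinearGroup.diag2n hij (p : ℚ) hp0) ^ l) := by
        rw [h4, inv_mul_cancel_left]
      rw [h5]
      exact H.mul_mem (H.inv_mem hd) (H.mul_mem hx hd)
    have h6 : x / p = (p ^ (2 * l - 1) : ℕ) • (x / (p : ℚ) ^ (2 * l)) := by
      rw [nsmul_eq_mul]
      push_cast
      have h7 : 2 * l = (2 * l - 1) + 1 := by omega
      rw [h7, Nat.add_sub_cancel, pow_succ]
      field_simp
    rw [h6]
    exact A.nsmul_mem h3 _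
  have hdiv : ∀ N : ℕ, N ≠ 0 → ∀ x ∈ A, x / N ∈ A := by
    intro N
    induction N using induction_on_primes with
    | zero => intro h; exact absurd rfl h
    | one => intro _ x hx; simpa using hx
    | prime_mul p a hp ih =>
      intro hpa x hx
      have ha : a ≠ 0 := fun h => hpa (by rw [h, mul_zero])
      have h8 := ih ha _ (hpr p hp x hx)
      rw [div_div] at h8
      push_cast
      exact h8
  intro x
  rw [← hA]
  have h9 := hdiv (M * x.den) (mul_ne_zero hM0.ne' x.den_nz) _ hMA
  have h10 := A.zsmul_mem h9 x.num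
  have h11 : x.num • ((M : ℚ) / ((M * x.den : ℕ) : ℚ)) = x := by
    rw [zsmul_eq_mul]
    push_cast
    have hM1 : (M : ℚ) ≠ 0 := by exact_mod_cast hM0.ne'
    have hx1 : (x.den : ℚ) ≠ 0 := by exact_mod_cast x.den_nz
    have hx2 := Rat.num_div_den x
    field_simp
    field_simp at hx2
    linarith
  rwa [h11] at h10

end Pool.Agent.ISL
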