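import Pool.Agent.helper24.ISL.Spec

/-!
# Row TG of `Pool.Agent.helper24.ISL.Spec`
-/

set_option autoImplicit false

namespace Pool.Agent.ISL

open Matrix

theorem TG_mul {n : ℕ} {F : Type} [Field F] (v φ v' φ' : Fin n → F) :
    (1 + rk v φ) * (1 + rk v' φ') = 1 + rk v φ + rk v' φ' + (φ ⬝ᵥ v') • rk v φ' := by
  unfold rk
  rw [mul_add, add_mul, add_mul, mul_one, mul_one, one_mul, Matrix.vecMulVec_mul_vecMulVec,
    Matrix.vecMulVec_smul]
  abel

/-- conjugation in `K` -/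
theorem TG_conj {n : ℕ} {F : Type} [Field F] (K : Subgroup (SL n F)) {L X Y : Mat n F}
    (hL : InK K L) (hX : InK K X) (h : L * Y = X * L) : InK K Y := by
  obtain ⟨l, hl, rfl⟩ := hL
  obtain ⟨x, hx, rfl⟩ := hX
  refine ⟨l⁻¹ * x * l, K.mul_mem (K.mul_mem (K.inv_mem hl) hx) hl, ?_⟩
  have h1 : ((l⁻¹ : SL n F) : Mat n F) * (l : Mat n F) = 1 := by
    rw [← Matrix.SpecialLinearGroup.coe_mul, inv_mul_cancel, Matrix.SpecialLinearGroup.coe_one]
  rw [Matrix.SpecialLinearGroup.coe_mul, Matrix.SpecialLinearGroup.coe_mul, mul_assoc, ← h,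
    ← mul_assoc, h1, one_mul]

theorem TG_quot {n : ℕ} {F : Type} [Field F] (K : Subgroup (SL n F)) {P Q X : Mat n F}
    (hP : InK K P) (hQ : InK K Q) (h : X * P = Q) : InK K X := by
  obtain ⟨p, hp, rfl⟩ := hP
  obtain ⟨q, hq, rfl⟩ := hQ
  refine ⟨q * p⁻¹, K.mul_mem hq (K.inv_mem hp), ?_⟩
  have h1 : (p : Mat n F) * ((p⁻¹ : SL n F) : Mat n F) = 1 := by
    rw [← Matrix.SpecialLinearGroup.coe_mul, mul_inv_cancel, Matrix.SpecialLinearGroup.coe_one]
  rw [Matrix.SpecialLinearGroup.coe_mul, ← h, mul_assoc, h1, mul_one]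

theorem TG_InK_mul {n : ℕ} {F : Type} [Field F] (K : Subgroup (SL n F)) {P Q : Mat n F}
    (hP : InK K P) (hQ : InK K Q) : InK K (P * Q) := by
  obtain ⟨p, hp, rfl⟩ := hP
  obtain ⟨q, hq, rfl⟩ := hQ
  exact ⟨p * q, K.mul_mem hp hq, Matrix.SpecialLinearGroup.coe_mul p q⟩

theorem TG (h1 : TW_stmt) : TG_stmt := by
  intro n F _ K hn c θ hθ hw hψ
  -- (i)
  have hi : ∀ w ψ : Fin n → F, θ ⬝ᵥ w = 0 → ψ ⬝ᵥ c = 0 → ψ ⬝ᵥ w = 0 → InK K (1 + rk w ψ) := by
    intro w ψ h2 h3 h4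
    refine TG_quot K (TG_InK_mul K (hψ ψ h3) (hw w h2)) (TG_InK_mul K (hw w h2) (hψ ψ h3)) ?_
    rw [TG_mul, TG_mul, h4, hθ, zero_smul, add_zero, one_smul]
    have h5 : (1 + rk w ψ) * (1 + rk c ψ + rk w θ) = (1 + rk w ψ) * (1 + rk c ψ) +
        (1 + rk w ψ) * (1 + rk w θ) - (1 + rk w ψ) := by
      noncomm_ring
    rw [h5, TG_mul, TG_mul, h3, h4, zero_smul, zero_smul]
    abel
  -- (ii)
  have hii : ∀ v φ : Fin n → F, φ ⬝ᵥ v = 0 → InK K (1 + rk v φ) := by
    intro v φ h2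
    by_cases hα : θ ⬝ᵥ v = 0
    · -- α = 0
      have h3 : (φ - (φ ⬝ᵥ c) • θ) ⬝ᵥ c = 0 := by
        rw [sub_dotProduct, smul_dotProduct, hθ, smul_eq_mul, mul_one, sub_self]
      have h4 : (φ - (φ ⬝ᵥ c) • θ) ⬝ᵥ v = 0 := by
        rw [sub_dotProduct, smul_dotProduct, hα, h2, smul_zero, sub_zero]
      have h5 := TG_InK_mul K (hw ((φ ⬝ᵥ c) • v) (by rw [dotProduct_smul, hα, smul_zero]))
        (hi v (φ - (φ ⬝ᵥ c) • θ) hα h3 h4)
      rw [TG_mul, hα, zero_smul, add_zero] at h5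
      have h6 : 1 + rk ((φ ⬝ᵥ c) • v) θ + rk v (φ - (φ ⬝ᵥ c) • θ) = 1 + rk v φ := by
        ext i j
        simp only [rk, Matrix.add_apply, Matrix.vecMulVec_apply, Pi.smul_apply, Pi.sub_apply, smul_eq_mul]
        ring
      rwa [h6] at h5
    · -- α ≠ 0
      set α := θ ⬝ᵥ v with hαd
      set u : Fin n → F := -(α⁻¹ • (v - α • c)) with hu
      have hθu : θ ⬝ᵥ u = 0 := by
        rw [hu, dotProduct_neg, dotProduct_smul, dotProduct_sub, dotProduct_smul, hθ, ← hαd,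
          smul_eq_mul, smul_eq_mul, mul_one, sub_self, mul_zero, neg_zero]
      set χ : Fin n → F := α • (φ - (φ ⬝ᵥ u) • θ) with hχ
      have hφu : φ ⬝ᵥ u = φ ⬝ᵥ c := by
        rw [hu, dotProduct_neg, dotProduct_smul, dotProduct_sub, dotProduct_smul, h2, smul_eq_mul,
          smul_eq_mul]
        field_simp
        ring
      have hχc : χ ⬝ᵥ c = 0 := by
        rw [hχ, smul_dotProduct, sub_dotProduct, smul_dotProduct, hθ, hφu, smul_eq_mul, smul_eq_mul,
          mul_one, sub_self, mul_zero]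
      have hχu : χ ⬝ᵥ u = α * (φ ⬝ᵥ u) := by
        rw [hχ, smul_dotProduct, sub_dotProduct, smul_dotProduct, hθu, smul_eq_mul, smul_eq_mul,
          mul_zero, sub_zero]
      refine TG_conj K (hw u hθu) (hψ χ hχc) ?_
      rw [TG_mul, TG_mul, hχu, ← hαd]
      ext i j
      simp only [rk, hχ, hu, Matrix.add_apply, Matrix.vecMulVec_apply, Matrix.smul_apply, Pi.smul_apply,
        Pi.sub_apply, Pi.neg_apply, smul_eq_mul]
      field_simp
      ring
  refine h1 n F K hn ?_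
  intro i j hij x
  have h2 := hii (x • Pi.single i 1) (Pi.single j 1) (by
    rw [dotProduct_smul, dotProduct_single, mul_one]
    rw [Pi.single_eq_of_ne hij, smul_zero])
  obtain ⟨k, hk, hk2⟩ := h2
  have h3 : k = Matrix.SpecialLinearGroup.transvection hij x := by
    apply Subtype.ext
    rw [Matrix.SpecialLinearGroup.transvection_coe]
    refine hk2.trans ?_
    congr 1
    ext a b
    simp only [rk, Matrix.vecMulVec_apply, Pi.smul_apply, smul_eq_mul, Matrix.single_apply]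
    by_cases ha : i = a
    · by_cases hb : j = b
      · subst ha hb
        simp
      · simp [ha, hb, Pi.single_apply, Ne.symm hb]
    · simp [ha, Pi.single_apply, Ne.symm ha]
  rw [← h3]
  exact hk

end Pool.Agent.ISL
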